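import Pool.Agent.K3h5.IB.Stm

/-!
# Iterated biased random walks: brick REPL (helper6)
-/

set_option autoImplicit false

open MeasureTheory Filter Topology

namespace Pool.Agent.K3h6.IB

open Pool.Agent.K3h5.IB

variable {d : ℕ}

/-- the flattened index of an entry of the stacks of the level `a` -/
def phi (a : ℕ) (j : ℕ × ℕ × Finset (D d)) : ℕ × Option (J d) := (j.1, some (a, j.2.1, j.2.2))

lemma phi_inj (a : ℕ) : Function.Injective (phi (d := d) a) := by
  rintro ⟨k, m, E⟩ ⟨k', m', E'⟩ h
  simp only [phi, Prod.mk.injEq, Option.some.injEq, true_and] at h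
  obtain ⟨h1, h2, h3⟩ := h
  subst h1 h2 h3
  rfl

lemma repl_phi (a : ℕ) (x : ℕ → S d) (u : ℕ × ℕ × Finset (D d) → D d)
    (j : ℕ × ℕ × Finset (D d)) : repl a x u (phi a j).1 (phi a j).2 = u j := by
  simp [repl, phi]

lemma repl_not (a : ℕ) (x : ℕ → S d) (u : ℕ × ℕ × Finset (D d) → D d)
    (r : ℕ × Option (J d)) (h : r ∉ Set.range (phi (d := d) a)) :
    repl a x u r.1 r.2 = x r.1 r.2 := by
  obtain ⟨k, o⟩ := r
  rcases o with _ | ⟨i, m, E⟩
  · rfl
  · have hi : i ≠ a := by
      rintro rfl
      exact h ⟨(k, m, E), rfl⟩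
    simp [repl, hi]

lemma measurable_repl (a : ℕ) :
    Measurable fun z : (ℕ → S d) × (ℕ × ℕ × Finset (D d) → D d) => repl a z.1 z.2 := by
  refine measurable_pi_iff.2 fun k => measurable_pi_iff.2 fun o => ?_
  by_cases h : (k, o) ∈ Set.range (phi (d := d) a)
  · obtain ⟨j, hj⟩ := h
    have : (fun z : (ℕ → S d) × (ℕ × ℕ × Finset (D d) → D d) => repl a z.1 z.2 k o) =
        fun z => z.2 j := by
      funext z
      have := repl_phi a z.1 z.2 j
      rw [hj] at this
      exact this
    rw [this]
    fun_prop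
  · have : (fun z : (ℕ → S d) × (ℕ × ℕ × Finset (D d) → D d) => repl a z.1 z.2 k o) =
        fun z => z.1 k o := by
      funext z
      exact repl_not a z.1 z.2 (k, o) h
    rw [this]
    fun_prop

theorem t_REPL : S_PROB → S_REPL := by
  intro hP d p q hpar a
  classical
  obtain ⟨h1, h2, h3, -⟩ := hP d p q hpar
  have := h1
  have := h2
  have := h3
  have hUprob : IsProbabilityMeasure (UU p q a) := by unfold UU; infer_instance
  refine ⟨measurable_repl a, ?_⟩
  have hflat : (PP p q).map (MeasurableEquiv.curry ℕ (Option (J d)) (D d)).symm =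
      Measure.infinitePi fun r : ℕ × Option (J d) => lam p q r.2 :=
    Measure.infinitePi_map_curry_symm (fun (_ : ℕ) (o : Option (J d)) => lam p q o)
  rw [← (MeasurableEquiv.curry ℕ (Option (J d)) (D d)).symm.map_measurableEquiv_injective.eq_iff,
    hflat, Measure.map_map (MeasurableEquiv.measurable _) (measurable_repl a)]
  refine Measure.eq_infinitePi _ fun s t ht => ?_
  rw [Measure.map_apply ((MeasurableEquiv.measurable _).comp (measurable_repl a))
    (.pi s.countable_toSet fun _ _ ↦ ht _)]
  set s1 : Finset (ℕ × Option (J d)) := s.filter fun r => r ∉ Set.range (phi (d := d) a) with hs1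
  set s2 : Finset (ℕ × ℕ × Finset (D d)) := s.preimage (phi a) (phi_inj a).injOn with hs2
  have hset : ((MeasurableEquiv.curry ℕ (Option (J d)) (D d)).symm ∘
      fun z : (ℕ → S d) × (ℕ × ℕ × Finset (D d) → D d) => repl a z.1 z.2) ⁻¹' (Set.pi s t) =
      ((MeasurableEquiv.curry ℕ (Option (J d)) (D d)).symm ⁻¹' (Set.pi s1 t)) ×ˢ
        (Set.pi s2 fun j => t (phi a j)) := by
    ext z
    simp only [Set.mem_preimage, Function.comp_apply, Set.mem_pi, Set.mem_prod]
    constructor
    · intro h
      refine ⟨fun r hr => ?_, fun j hj => ?_⟩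
      · have hr' := Finset.mem_coe.1 hr
        rw [hs1, Finset.mem_filter] at hr'
        have := h r (Finset.mem_coe.2 hr'.1)
        have h' := repl_not a z.1 z.2 r hr'.2
        change repl a z.1 z.2 r.1 r.2 ∈ t r at this
        rw [h'] at this
        exact this
      · have hj' := Finset.mem_coe.1 hj
        rw [hs2, Finset.mem_preimage] at hj'
        have := h (phi a j) (Finset.mem_coe.2 hj')
        change repl a z.1 z.2 (phi a j).1 (phi a j).2 ∈ t (phi a j) at this
        rwa [repl_phi] at this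
    · rintro ⟨ha, hb⟩ r hr
      change repl a z.1 z.2 r.1 r.2 ∈ t r
      by_cases h : r ∈ Set.range (phi (d := d) a)
      · obtain ⟨j, rfl⟩ := h
        rw [repl_phi]
        exact hb j (Finset.mem_coe.2 (Finset.mem_preimage.2 (Finset.mem_coe.1 hr)))
      · rw [repl_not a z.1 z.2 r h]
        exact ha r (Finset.mem_coe.2 (Finset.mem_filter.2 ⟨Finset.mem_coe.1 hr, h⟩))
  rw [hset, Measure.prod_prod]
  have hA : (PP p q) ((MeasurableEquiv.curry ℕ (Option (J d)) (D d)).symm ⁻¹' (Set.pi s1 t)) =
      ∏ r ∈ s1, lam p q r.2 (t r) := by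
    rw [← Measure.map_apply (MeasurableEquiv.measurable _)
      (.pi s1.countable_toSet fun _ _ ↦ ht _), hflat]
    exact Measure.infinitePi_pi _ fun i _ => ht i
  have hB : (UU p q a) (Set.pi s2 fun j => t (phi a j)) =
      ∏ j ∈ s2, lam p q (phi a j).2 (t (phi a j)) := by
    unfold UU
    exact Measure.infinitePi_pi _ fun i _ => ht _
  rw [hA, hB, ← Finset.prod_filter_mul_prod_filter_not s
    (fun r => r ∉ Set.range (phi (d := d) a))]
  congr 1
  rw [hs2, Finset.prod_preimage' (phi a) s (phi_inj a).injOn fun r => lam p q r.2 (t r)]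
  refine Finset.prod_congr ?_ fun _ _ => rfl
  ext r
  simp

end Pool.Agent.K3h6.IB
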